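import Mathlib
import Pool.Agent.Helper951.WheelCE

set_option autoImplicit false

namespace Pool.Agent.Results.MP_1392dc_co.LargeWheelsDisproof

open Finset Pool.Agent.Helper951.Defs Pool.Agent.Helper951.Spec Pool.Agent.Helper951.WheelCE

/-- Some finite graph with exactly `m` edges and no isolated vertices contains no wheel `W_t` with
`t ≥ 2k+1` vertices, and its spectral radius exceeds `(k - 1 + √(4m - k² + 1)) / 2`. -/
def Violates (k m : ℕ) : Prop :=
  ∃ (V : Type) (_ : Fintype V) (G : SimpleGraph V),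
    G.edgeSet.ncard = m ∧ (∀ v, ∃ w, G.Adj v w) ∧
    (∀ t : ℕ, 2 * k + 1 ≤ t → ¬ (wheel t).IsContained G) ∧
    ((k : ℝ) - 1 + Real.sqrt (4 * m - (k : ℝ) ^ 2 + 1)) / 2 < specRad G

lemma cyc_adj {n : ℕ} (j : Fin (n + 4)) : (SimpleGraph.cycleGraph (n + 4)).Adj j (j + 1) := by
  rw [SimpleGraph.cycleGraph_adj]
  right
  exact add_sub_cancel_left j 1

lemma JM_free_ge (s t L : ℕ) (hL : 5 ≤ L) : ¬ (wheel L).IsContained (JM s t) := by
  obtain ⟨n, rfl⟩ : ∃ n, L = n + 4 + 1 := ⟨L - 5, by omega⟩
  rintro ⟨f⟩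
  have hinj := f.injective
  have hadj : ∀ i j, (wheel (n + 4 + 1)).Adj i j → (JM s t).Adj (f.toHom i) (f.toHom j) :=
    fun i j h => f.toHom.map_adj h
  generalize f.toHom = g at hinj hadj
  have h0 : ∀ i : Fin (n + 4), (JM s t).Adj (g (Sum.inl 0)) (g (Sum.inr i)) :=
    fun i => hadj _ _ trivial
  have hc : ∀ i j : Fin (n + 4), (SimpleGraph.cycleGraph (n + 4)).Adj i j →
      (JM s t).Adj (g (Sum.inr i)) (g (Sum.inr j)) := fun i j h => hadj _ _ h
  have hne : ∀ i j : Fin (n + 4), i ≠ j → g (Sum.inr i) ≠ g (Sum.inr j) := by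
    intro i j hij h
    exact hij (Sum.inr_injective (hinj h))
  obtain ⟨q, hq⟩ : ∃ q : Fin (n + 4) → Fin s ⊕ Fin t, ∀ i : Fin (n + 4), g (Sum.inr i) = q i :=
    ⟨fun i => g (Sum.inr i), fun _ => rfl⟩
  simp only [hq] at h0 hc hne
  -- there is a window of three consecutive vertices away from any given index
  have hwin : ∀ j : Fin (n + 4), ∃ a : Fin (n + 4), a ≠ j ∧ a + 1 ≠ j ∧ a + 1 + 1 ≠ j ∧
      a ≠ a + 1 + 1 := by
    intro j
    have one_val : (1 : Fin (n + 4)).val = 1 := rfl
    have e2 : (1 + 1 : Fin (n + 4)).val = 2 := by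
      rw [Fin.val_add, one_val, Nat.mod_eq_of_lt (by omega)]
    have e3 : (1 + 1 + 1 : Fin (n + 4)).val = 3 := by
      rw [Fin.val_add, e2, one_val, Nat.mod_eq_of_lt (by omega)]
    have z : (0 : Fin (n + 4)).val = 0 := rfl
    refine ⟨j + 1, ?_, ?_, ?_, ?_⟩
    · intro h
      have : (1 : Fin (n + 4)) = 0 := by simpa using h
      have := congrArg Fin.val this
      omega
    · intro h
      rw [add_assoc] at h
      have : (1 + 1 : Fin (n + 4)) = 0 := by simpa using h
      have := congrArg Fin.val this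
      omega
    · intro h
      rw [add_assoc, add_assoc] at h
      have : (1 + (1 + 1) : Fin (n + 4)) = 0 := by simpa using h
      rw [← add_assoc] at this
      have := congrArg Fin.val this
      omega
    · intro h
      rw [add_assoc] at h
      have : (1 + 1 : Fin (n + 4)) = 0 := by simpa using h
      have := congrArg Fin.val this
      omega
  rcases hg : g (Sum.inl 0) with c | c
  · -- all but at most one vertex of the rim lie on the right side
    have hwin2 : ∃ a : Fin (n + 4), a ≠ a + 1 + 1 ∧ (∃ x, q a = Sum.inr x) ∧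
        (∃ x, q (a + 1) = Sum.inr x) ∧ (∃ x, q (a + 1 + 1) = Sum.inr x) := by
      by_cases hex : ∃ j b, q j = Sum.inl b
      · obtain ⟨j, b, hb⟩ := hex
        have key : ∀ i, i ≠ j → ∃ x, q i = Sum.inr x := by
          intro i hij
          rcases hi : q i with y | y
          · exfalso
            have a1 := h0 j
            have a2 := h0 i
            rw [hg, hb, JM_ll] at a1
            rw [hg, hi, JM_ll] at a2
            apply hne i j hij
            rw [hi, hb]
            congr 1
            ext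
            omega
          · exact ⟨y, rfl⟩
        obtain ⟨a, h1, h2, h3, h4⟩ := hwin j
        exact ⟨a, h4, key _ h1, key _ h2, key _ h3⟩
      · have key : ∀ i, ∃ x, q i = Sum.inr x := by
          intro i
          rcases hi : q i with y | y
          · exact absurd ⟨i, y, hi⟩ hex
          · exact ⟨y, rfl⟩
        obtain ⟨a, h1, h2, h3, h4⟩ := hwin 0
        exact ⟨a, h4, key _, key _, key _⟩
    obtain ⟨a, h4, ⟨x, hx⟩, ⟨y, hy⟩, ⟨z, hz⟩⟩ := hwin2
    have b1 := hc _ _ (cyc_adj a)
    have b2 := hc _ _ (cyc_adj (a + 1))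
    rw [hx, hy, JM_rr] at b1
    rw [hy, hz, JM_rr] at b2
    apply hne _ _ h4
    rw [hx, hz]
    congr 1
    ext
    omega
  · have hwin2 : ∃ a : Fin (n + 4), a ≠ a + 1 + 1 ∧ (∃ x, q a = Sum.inl x) ∧
        (∃ x, q (a + 1) = Sum.inl x) ∧ (∃ x, q (a + 1 + 1) = Sum.inl x) := by
      by_cases hex : ∃ j b, q j = Sum.inr b
      · obtain ⟨j, b, hb⟩ := hex
        have key : ∀ i, i ≠ j → ∃ x, q i = Sum.inl x := by
          intro i hij
          rcases hi : q i with y | y
          · exact ⟨y, rfl⟩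
          · exfalso
            have a1 := h0 j
            have a2 := h0 i
            rw [hg, hb, JM_rr] at a1
            rw [hg, hi, JM_rr] at a2
            apply hne i j hij
            rw [hi, hb]
            congr 1
            ext
            omega
        obtain ⟨a, h1, h2, h3, h4⟩ := hwin j
        exact ⟨a, h4, key _ h1, key _ h2, key _ h3⟩
      · have key : ∀ i, ∃ x, q i = Sum.inl x := by
          intro i
          rcases hi : q i with y | y
          · exact ⟨y, rfl⟩
          · exact absurd ⟨i, y, hi⟩ hex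
        obtain ⟨a, h1, h2, h3, h4⟩ := hwin 0
        exact ⟨a, h4, key _, key _, key _⟩
    obtain ⟨a, h4, ⟨x, hx⟩, ⟨y, hy⟩, ⟨z, hz⟩⟩ := hwin2
    have b1 := hc _ _ (cyc_adj a)
    have b2 := hc _ _ (cyc_adj (a + 1))
    rw [hx, hy, JM_ll] at b1
    rw [hy, hz, JM_ll] at b2
    apply hne _ _ h4
    rw [hx, hz]
    congr 1
    ext
    omega

/-- The join of two perfect matchings on `2r` vertices violates the bound for `k = 2`. -/
lemma violation (r : ℕ) (hr : 1 ≤ r) : Violates 2 (2 * r * (2 * r + 1)) := by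
  refine ⟨Fin (2 * r) ⊕ Fin (2 * r), inferInstance, JM (2 * r) (2 * r), ?_, ?_,
    fun t ht => JM_free_ge _ _ t ht, ?_⟩
  · rw [Set.ncard_eq_toFinset_card', ← JM_edges_even r]
    rfl
  · rintro (i | j)
    · exact ⟨Sum.inr ⟨0, by omega⟩, JM_lr _ _⟩
    · exact ⟨Sum.inl ⟨0, by omega⟩, JM_rl _ _⟩
  · have : Nonempty (Fin (2 * r) ⊕ Fin (2 * r)) := ⟨Sum.inl ⟨0, by omega⟩⟩
    have hlow : (2 * (r : ℝ) + 1) ≤ specRad (JM (2 * r) (2 * r)) := by
      apply le_specRad_of_sub (JM (2 * r) (2 * r)) (fun _ => 1) (fun _ => zero_le_one)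
        ⟨Sum.inl ⟨0, by omega⟩, one_pos⟩
      rintro (i | i)
      · rw [Finset.sum_const, SimpleGraph.card_neighborFinset_eq_degree, JM_deg_l,
          nsmul_eq_mul, mul_one, mul_one]
        have := i.isLt
        rw [if_pos (by omega)]
        push_cast
        linarith
      · rw [Finset.sum_const, SimpleGraph.card_neighborFinset_eq_degree, JM_deg_r,
          nsmul_eq_mul, mul_one, mul_one]
        have := i.isLt
        rw [if_pos (by omega)]
        push_cast
        linarith
    refine lt_of_lt_of_le ?_ hlow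
    have hr0 : (0 : ℝ) ≤ r := Nat.cast_nonneg r
    have h1 : Real.sqrt (4 * ((2 * r * (2 * r + 1) : ℕ) : ℝ) - ((2 : ℕ) : ℝ) ^ 2 + 1)
        < 4 * r + 1 := by
      rw [Real.sqrt_lt' (by linarith)]
      push_cast
      nlinarith
    have h2 : ((2 : ℕ) : ℝ) - 1 = 1 := by norm_num
    rw [h2, div_lt_iff₀ (by norm_num)]
    linarith

/-- Q1 fails for `k = 2`, for infinitely many numbers of edges. -/
theorem result : {m : ℕ | Violates 2 m}.Infinite := by
  rw [Set.infinite_iff_exists_gt]
  intro N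
  refine ⟨2 * (N + 1) * (2 * (N + 1) + 1), violation (N + 1) (by omega), ?_⟩
  have : 2 * (N + 1) * (2 * (N + 1) + 1) = 4 * (N * N) + 10 * N + 6 := by ring
  omega

end Pool.Agent.Results.MP_1392dc_co.LargeWheelsDisproof
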